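import Pool.Agent.E8helper43.ER.Stm

/-!
# Project ER, piece SHIFT: the set of the shifts of a finite sequence is Ramsey
-/

set_option autoImplicit false

namespace Pool.Agent.E8helper12.ER

open Finset
open Pool.Agent.E8helper43.ER

/-- the point of a set -/
noncomputable def pt {N : ℕ} (a : ℕ → ℝ) (K : Finset (Fin N)) : Eu N :=
  WithLp.toLp 2 (fun x => if x ∈ K then a (K.filter (fun y => y < x)).card else 0)

theorem pt_apply {N : ℕ} (a : ℕ → ℝ) (K : Finset (Fin N)) (x : Fin N) :
    pt a K x = if x ∈ K then a (K.filter (fun y => y < x)).card else 0 := rfl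

/-- a window -/
def win {N n k : ℕ} (f : Fin (n + k) ↪o Fin N) (i : Fin (n + 1)) : Finset (Fin N) :=
  (univ : Finset (Fin k)).image fun t : Fin k => f ⟨(i : ℕ) + (t : ℕ), by omega⟩

theorem win_card {N n k : ℕ} (f : Fin (n + k) ↪o Fin N) (i : Fin (n + 1)) :
    (win f i).card = k := by
  unfold win
  rw [card_image_of_injective, card_univ, Fintype.card_fin]
  intro s t h
  have h1 := f.injective h
  have h2 := congrArg Fin.val h1
  simp only at h2
  exact Fin.ext (by omega)

theorem mem_win {N n k : ℕ} (f : Fin (n + k) ↪o Fin N) (i : Fin (n + 1)) (l : Fin (n + k)) :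
    f l ∈ win f i ↔ (i : ℕ) ≤ l ∧ (l : ℕ) < i + k := by
  unfold win
  rw [mem_image]
  constructor
  · rintro ⟨t, -, h⟩
    have h1 := f.injective h
    have h2 := congrArg Fin.val h1
    simp only at h2
    have := t.2
    omega
  · rintro ⟨h1, h2⟩
    refine ⟨⟨l - i, by omega⟩, mem_univ _, ?_⟩
    congr 1
    apply Fin.ext
    simp only
    omega

theorem win_lt {N n k : ℕ} (f : Fin (n + k) ↪o Fin N) (i : Fin (n + 1)) (l : Fin (n + k))
    (h1 : (i : ℕ) ≤ l) (h2 : (l : ℕ) < i + k) :
    ((win f i).filter (fun y => y < f l)).card = l - i := by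
  unfold win
  rw [filter_image, card_image_of_injective]
  · rw [← card_range ((l : ℕ) - i)]
    refine card_bij (fun t _ => (t : ℕ)) ?_ ?_ ?_
    · intro t ht
      have h3 := (mem_filter.1 ht).2
      rw [f.lt_iff_lt, Fin.lt_def] at h3
      simp only at h3
      rw [mem_range]
      omega
    · intro s _ t _ h
      exact Fin.ext h
    · intro b hb
      rw [mem_range] at hb
      refine ⟨⟨b, by omega⟩, ?_, rfl⟩
      rw [mem_filter]
      refine ⟨mem_univ _, ?_⟩
      rw [f.lt_iff_lt, Fin.lt_def]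
      simp only
      omega
  · intro s t h
    have h1 := f.injective h
    have h2 := congrArg Fin.val h1
    simp only at h2
    exact Fin.ext (by omega)

theorem pt_win {N n k : ℕ} (a : ℕ → ℝ) (ha : ∀ l, k ≤ l → a l = 0) (f : Fin (n + k) ↪o Fin N)
    (i : Fin (n + 1)) (l : Fin (n + k)) :
    pt a (win f i) (f l) = if (i : ℕ) ≤ l then a (l - i) else 0 := by
  rw [pt_apply]
  by_cases h1 : (i : ℕ) ≤ l
  · rw [if_pos h1]
    by_cases h2 : (l : ℕ) < i + k
    · rw [if_pos ((mem_win f i l).2 ⟨h1, h2⟩), win_lt f i l h1 h2]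
    · rw [if_neg (fun h => h2 ((mem_win f i l).1 h).2), ha _ (by omega)]
  · rw [if_neg h1, if_neg (fun h => h1 ((mem_win f i l).1 h).1)]

theorem pt_out {N n k : ℕ} (a : ℕ → ℝ) (f : Fin (n + k) ↪o Fin N) (i : Fin (n + 1)) (x : Fin N)
    (hx : x ∉ Set.range f) : pt a (win f i) x = 0 := by
  rw [pt_apply, if_neg]
  intro h
  unfold win at h
  obtain ⟨t, -, h1⟩ := mem_image.1 h
  exact hx ⟨_, h1⟩

theorem t_SHIFT (h : S_RAM) : S_SHIFT := by
  intro n k a ha r
  obtain ⟨N, hN⟩ := h k (n + k) r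
  refine ⟨N, fun c => ?_⟩
  obtain ⟨M, hM, hc⟩ := hN fun K => c (pt a K)
  let f := M.orderEmbOfFin hM
  have hsub : ∀ i : Fin (n + 1), win f i ⊆ M := by
    intro i x hx
    unfold win at hx
    obtain ⟨t, -, rfl⟩ := mem_image.1 hx
    exact M.orderEmbOfFin_mem hM _
  refine ⟨fun i => pt a (win f i), fun i j => ?_, fun i j => ?_⟩
  · show dist (pt a (win f i)) (pt a (win f j)) ^ 2 = shD n k a i j
    rw [dist_sq]
    unfold shD
    rw [← Fin.sum_univ_eq_sum_range (fun l : ℕ =>
      ((if (i : ℕ) ≤ l then a (l - i) else 0) - (if (j : ℕ) ≤ l then a (l - j) else 0)) ^ 2)]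
    symm
    apply Fintype.sum_of_injective f f.injective
    · intro x hx
      rw [pt_out a f i x hx, pt_out a f j x hx]
      simp
    · intro l
      rw [pt_win a ha f i l, pt_win a ha f j l]
  · exact hc _ _ (hsub i) (hsub j) (win_card f i) (win_card f j)

end Pool.Agent.E8helper12.ER
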